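import Pool.Agent.KTK.Stmts

/-!
# Squad PRT / KTK, row BOX (helper92): the sizes of the boxes
-/

set_option autoImplicit false

namespace Pool.Agent.PRT.H92

open Pool.Agent.KTK Finset

/-- the excess `max_(l ≤ i) (S l i - τ (i - l))`, recursively -/
noncomputable def Bf (τ : ℝ) (s : ℕ → ℝ) : ℕ → ℝ
  | 0 => 0
  | k + 1 => max 0 (Bf τ s k + s k - τ)

theorem Bf_nonneg (τ : ℝ) (s : ℕ → ℝ) (i : ℕ) : 0 ≤ Bf τ s i := by
  cases i with
  | zero => exact le_refl _
  | succ k => exact le_max_left _ _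

theorem Bf_step (τ : ℝ) (s : ℕ → ℝ) (k : ℕ) : Bf τ s k + s k - τ ≤ Bf τ s (k + 1) :=
  le_max_right _ _

theorem Bf_le1 (τ : ℝ) (s : ℕ → ℝ) (n : ℕ) (hs : ∀ i < n, 0 ≤ s i) (hτ : 0 ≤ τ) :
    ∀ i ≤ n, Bf τ s i ≤ ∑ l ∈ Finset.Ico 0 i, s l := by
  intro i
  induction i with
  | zero => intro _; simp [Bf]
  | succ k ih =>
    intro hk
    have h1 := ih (by omega)
    have h2 := hs k (by omega)
    have h0 := Bf_nonneg τ s k
    rw [Finset.sum_Ico_succ_top (Nat.zero_le k)]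
    exact max_le (by linarith) (by linarith)

theorem Bf_le2 (τ σ : ℝ) (s : ℕ → ℝ) (n : ℕ) (hστ : σ ≤ τ)
    (h2 : ∀ i ≤ n, ∑ l ∈ Finset.Ico i n, s l ≤ σ * ((n : ℝ) - i)) :
    ∀ i ≤ n, Bf τ s i ≤ σ * ((n : ℝ) - i) - ∑ l ∈ Finset.Ico i n, s l := by
  intro i
  induction i with
  | zero =>
    intro h
    have := h2 0 h
    simp only [Bf]
    linarith
  | succ k ih =>
    intro hk
    have h1 := ih (by omega)
    have h3 := h2 (k + 1) hk
    have h4 : ∑ l ∈ Finset.Ico k n, s l = s k + ∑ l ∈ Finset.Ico (k + 1) n, s l :=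
      Finset.sum_eq_sum_Ico_succ_bot (by omega) _
    push_cast at h3 ⊢
    refine max_le (by linarith) ?_
    rw [h4] at h1
    linarith

/-- both bounds -/
theorem Bf_le (D : ℝ) (s : ℕ → ℝ) (n : ℕ) (hD : 1 ≤ D) (hs : ∀ i < n, 0 ≤ s i)
    (h1 : ∀ i ≤ n, ∑ l ∈ Finset.Ico 0 i, s l ≤ D / 100 * i)
    (h2 : ∀ i ≤ n, ∑ l ∈ Finset.Ico i n, s l ≤ D / 100 * ((n : ℝ) - i)) :
    ∀ i ≤ n, Bf (D / 50) s i ≤ D / 100 * i ∧ Bf (D / 50) s i ≤ D / 100 * ((n : ℝ) - i) := by
  intro i hi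
  refine ⟨(Bf_le1 (D / 50) s n hs (by linarith) i hi).trans (h1 i hi), ?_⟩
  have h3 := Bf_le2 (D / 50) (D / 100) s n (by linarith) h2 i hi
  have h4 : 0 ≤ ∑ l ∈ Finset.Ico i n, s l :=
    Finset.sum_nonneg fun l hl => hs l (Finset.mem_Ico.1 hl).2
  linarith

/-- the reversed sequence: sums -/
theorem sum_rev (s : ℕ → ℝ) (n i j : ℕ) (hij : i ≤ j) (hj : j ≤ n) :
    ∑ l ∈ Finset.Ico i j, s (n - 1 - l) = ∑ l ∈ Finset.Ico (n - j) (n - i), s l := by
  refine Finset.sum_bij' (fun l _ => n - 1 - l) (fun l _ => n - 1 - l) ?_ ?_ ?_ ?_ ?_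
  · intro l hl
    rw [Finset.mem_Ico] at hl ⊢
    omega
  · intro l hl
    rw [Finset.mem_Ico] at hl ⊢
    omega
  · intro l hl
    rw [Finset.mem_Ico] at hl
    show n - 1 - (n - 1 - l) = l
    omega
  · intro l hl
    rw [Finset.mem_Ico] at hl
    show n - 1 - (n - 1 - l) = l
    omega
  · intro l hl
    rfl

/-- **BOX** -/
theorem box : BoxStmt := by
  intro D n s θ hD hs h1 h2 hθ1 hθ2 hθn f0
  -- the two excess functions
  obtain ⟨b, hb⟩ : ∃ b : ℕ → ℝ, b = Bf (D / 50) s := ⟨_, rfl⟩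
  obtain ⟨b', hb'⟩ : ∃ b' : ℕ → ℝ, b' = fun i => Bf (D / 50) (fun k => s (n - 1 - k)) (n - i) :=
    ⟨_, rfl⟩
  have b0 : ∀ i, 0 ≤ b i := fun i => by rw [hb]; exact Bf_nonneg _ _ _
  have b'0 : ∀ i, 0 ≤ b' i := fun i => by rw [hb']; exact Bf_nonneg _ _ _
  have bs : ∀ i, b i + s i - D / 50 ≤ b (i + 1) := fun i => by rw [hb]; exact Bf_step _ _ _
  have b's : ∀ i < n, b' (i + 1) + s i - D / 50 ≤ b' i := by
    intro i hi
    have h := Bf_step (D / 50) (fun k => s (n - 1 - k)) (n - (i + 1))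
    have e1 : n - (i + 1) + 1 = n - i := by omega
    have e2 : n - 1 - (n - (i + 1)) = i := by omega
    rw [e1] at h
    simp only [e2] at h
    rw [hb']
    exact h
  have bb := Bf_le D s n hD hs h1 h2
  have bb' := Bf_le D (fun k => s (n - 1 - k)) n hD (fun i hi => hs _ (by omega))
    (by
      intro i hi
      have h := h2 (n - i) (by omega)
      rw [sum_rev s n 0 i (Nat.zero_le _) hi, Nat.sub_zero]
      rw [Nat.cast_sub hi] at h
      linarith)
    (by
      intro i hi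
      have h := h1 (n - i) (by omega)
      rw [sum_rev s n i n hi le_rfl, Nat.sub_self]
      rw [Nat.cast_sub hi] at h
      exact h)
  obtain ⟨c, hc⟩ : ∃ c : ℕ → ℝ, c = fun i => max (b i) (b' i) := ⟨_, rfl⟩
  have cb : ∀ i, b i ≤ c i := fun i => by rw [hc]; exact le_max_left _ _
  have cb' : ∀ i, b' i ≤ c i := fun i => by rw [hc]; exact le_max_right _ _
  have c0 : ∀ i, 0 ≤ c i := fun i => (b0 i).trans (cb i)
  have c1 : ∀ i ≤ n, c i ≤ D / 100 * i := by
    intro i hi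
    rw [hc]
    refine max_le ?_ ?_
    · rw [hb]
      exact (bb i hi).1
    · rw [hb']
      have h := (bb' (n - i) (by omega)).2
      rw [Nat.cast_sub hi] at h
      show Bf (D / 50) (fun k => s (n - 1 - k)) (n - i) ≤ D / 100 * i
      linarith
  have c2 : ∀ i ≤ n, c i ≤ D / 100 * ((n : ℝ) - i) := by
    intro i hi
    rw [hc]
    refine max_le ?_ ?_
    · rw [hb]
      exact (bb i hi).2
    · rw [hb']
      have h := (bb' (n - i) (by omega)).1
      rw [Nat.cast_sub hi] at h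
      exact h
  -- the difference
  obtain ⟨h, hh⟩ : ∃ h : ℕ → ℝ, h = fun i => (b' i - b i) / 2 := ⟨_, rfl⟩
  have h_up : ∀ i, 2 * h i ≤ c i := by
    intro i
    have := b0 i
    have := cb' i
    rw [hh]
    show 2 * ((b' i - b i) / 2) ≤ c i
    linarith
  have h_lo : ∀ i, -c i ≤ 2 * h i := by
    intro i
    have := b'0 i
    have := cb i
    rw [hh]
    show -c i ≤ 2 * ((b' i - b i) / 2)
    linarith
  have h_step : ∀ i < n, h (i + 1) - h i ≤ D / 50 - s i := by
    intro i hi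
    have h3 := bs i
    have h4 := b's i hi
    rw [hh]
    show (b' (i + 1) - b (i + 1)) / 2 - (b' i - b i) / 2 ≤ D / 50 - s i
    linarith
  -- the angles
  have ang : ∀ k ≤ n, θ (n - k) ≤ 2 * b' (n - k) + D / 2 + 1 := by
    intro k
    induction k with
    | zero =>
      intro _
      have := b'0 (n - 0)
      rw [Nat.sub_zero] at this ⊢
      linarith
    | succ k ih =>
      intro hk
      have h3 := ih (by omega)
      have e1 : n - (k + 1) + 1 = n - k := by omega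
      have hi : n - (k + 1) < n := by omega
      have h4 := b's _ hi
      have h5 := hθ2 _ hi
      have h6 := hθ1 _ hi
      have h7 := b'0 (n - (k + 1))
      rw [e1] at h4 h5
      by_cases hsi : s (n - (k + 1)) ≤ D / 2
      · have h8 := h6 hsi
        linarith
      · push Not at hsi
        linarith
  have ang' : ∀ i ≤ n, θ i ≤ 2 * c i + D / 2 + 1 := by
    intro i hi
    have h3 := ang (n - i) (by omega)
    have e1 : n - (n - i) = i := by omega
    rw [e1] at h3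
    have := cb' i
    linarith
  -- the function `F`
  obtain ⟨M, hM⟩ : ∃ M : ℕ → ℝ, M = fun i : ℕ => (Finset.range (n + 1)).sup' ⟨0, by simp⟩
      (fun l : ℕ => 8 * c l - D / 4 * |(i : ℝ) - l|) := ⟨_, rfl⟩
  have M1 : ∀ i : ℕ, ∀ l ≤ n, 8 * c l - D / 4 * |(i : ℝ) - l| ≤ M i := by
    intro i l hl
    rw [hM]
    exact Finset.le_sup' (fun l : ℕ => 8 * c l - D / 4 * |(i : ℝ) - l|)
      (Finset.mem_range.2 (by omega))
  have M2 : ∀ (i : ℕ) (t : ℝ), (∀ l ≤ n, 8 * c l - D / 4 * |(i : ℝ) - l| ≤ t) → M i ≤ t := by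
    intro i t ht
    rw [hM]
    refine Finset.sup'_le _ _ fun l hl => ht l ?_
    have := Finset.mem_range.1 hl
    omega
  have M3 : ∀ i ≤ n, 8 * c i ≤ M i := by
    intro i hi
    have := M1 i i hi
    simpa using this
  have M4 : ∀ i : ℕ, M (i + 1) ≤ M i + D / 4 := by
    intro i
    refine M2 _ _ fun l hl => ?_
    have h3 := M1 i l hl
    have h4 : |(i : ℝ) - l| ≤ |((i + 1 : ℕ) : ℝ) - l| + 1 := by
      have e1 : (i : ℝ) - l = (((i + 1 : ℕ) : ℝ) - l) + (-1) := by push_cast; ring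
      rw [e1]
      refine (abs_add_le _ _).trans ?_
      norm_num
    have h5 : D / 4 * |(i : ℝ) - l| ≤ D / 4 * (|((i + 1 : ℕ) : ℝ) - l| + 1) :=
      mul_le_mul_of_nonneg_left h4 (by linarith)
    linarith
  have M5 : ∀ i : ℕ, M i ≤ M (i + 1) + D / 4 := by
    intro i
    refine M2 _ _ fun l hl => ?_
    have h3 := M1 (i + 1) l hl
    have h4 : |((i + 1 : ℕ) : ℝ) - l| ≤ |(i : ℝ) - l| + 1 := by
      have e1 : ((i + 1 : ℕ) : ℝ) - l = ((i : ℝ) - l) + 1 := by push_cast; ring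
      rw [e1]
      refine (abs_add_le _ _).trans ?_
      norm_num
    have h5 : D / 4 * |((i + 1 : ℕ) : ℝ) - l| ≤ D / 4 * (|(i : ℝ) - l| + 1) :=
      mul_le_mul_of_nonneg_left h4 (by linarith)
    linarith
  have cz0 : c 0 = 0 := le_antisymm (by simpa using c1 0 (Nat.zero_le n)) (c0 0)
  have czn : c n = 0 := le_antisymm (by simpa using c2 n le_rfl) (c0 n)
  have hz0 : h 0 = 0 := by
    have := h_up 0
    have := h_lo 0
    rw [cz0] at *
    linarith
  have hzn : h n = 0 := by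
    have := h_up n
    have := h_lo n
    rw [czn] at *
    linarith
  have M0 : M 0 = 0 := by
    refine le_antisymm ?_ (by have := M3 0 (Nat.zero_le n); rw [cz0] at this; linarith)
    refine M2 _ _ fun l hl => ?_
    have h3 := c1 l hl
    have h4 : |((0 : ℕ) : ℝ) - l| = l := by
      rw [Nat.cast_zero, zero_sub, abs_neg, Nat.abs_cast]
    rw [h4]
    have h5 : (0 : ℝ) ≤ l := Nat.cast_nonneg l
    nlinarith
  have Mn : M n = 0 := by
    refine le_antisymm ?_ (by have := M3 n le_rfl; rw [czn] at this; linarith)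
    refine M2 _ _ fun l hl => ?_
    have h3 := c2 l hl
    have h5 : (l : ℝ) ≤ n := by exact_mod_cast hl
    have h4 : |(n : ℝ) - l| = n - l := abs_of_nonneg (by linarith)
    rw [h4]
    nlinarith
  refine ⟨fun i => -(f0 + M i) + h i, fun i => -(f0 + M i) - h i, ?_, ?_, ?_, ?_, ?_, ?_⟩
  · show -(f0 + M 0) + h 0 = -f0
    rw [M0, hz0]; ring
  · show -(f0 + M 0) - h 0 = -f0
    rw [M0, hz0]; ring
  · show -(f0 + M n) + h n = -f0
    rw [Mn, hzn]; ring
  · show -(f0 + M n) - h n = -f0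
    rw [Mn, hzn]; ring
  · intro i hi
    have h3 := M3 i hi
    have h4 := h_up i
    have h5 := h_lo i
    have h6 := c0 i
    constructor
    · show -(f0 + M i) + h i ≤ -f0
      linarith
    · show -(f0 + M i) - h i ≤ -f0
      linarith
  · intro i hi
    have h3 := h_step i hi
    have h4 := M4 i
    have h5 := M5 i
    have h6 := M3 i hi.le
    have h7 := M3 (i + 1) hi
    have h8 := ang' (i + 1) hi
    have h9 := c0 i
    have h10 := c0 (i + 1)
    have h11 := h_up i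
    have h12 := h_lo i
    have h13 := h_up (i + 1)
    have h14 := h_lo (i + 1)
    refine ⟨?_, ?_, ?_, ?_, ?_, ?_⟩
    · show -(f0 + M (i + 1)) + h (i + 1) ≤ -(f0 + M i) + h i + D / 2 - s i
      linarith
    · show -(f0 + M i) - h i - D / 2 + s i ≤ -(f0 + M (i + 1)) - h (i + 1)
      linarith
    · show 2 * (-(f0 + M i) + h i) ≤ -(f0 + M (i + 1)) + h (i + 1) - θ (i + 1) - (f0 - 2 * D)
      linarith
    · show 2 * (-(f0 + M i) + h i) ≤ -(f0 + M (i + 1)) - h (i + 1) - θ (i + 1) - (f0 - 2 * D)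
      linarith
    · show 2 * (-(f0 + M i) - h i) ≤ -(f0 + M (i + 1)) + h (i + 1) - θ (i + 1) - (f0 - 2 * D)
      linarith
    · show 2 * (-(f0 + M i) - h i) ≤ -(f0 + M (i + 1)) - h (i + 1) - θ (i + 1) - (f0 - 2 * D)
      linarith

end Pool.Agent.PRT.H92
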